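import Pool.Agent.Q262.Mono.Lists

/-!
Cyclotomic polynomials by lists, derivatives, evaluation at rational points.
-/

set_option autoImplicit false

open Polynomial

namespace Q262.Mono

open Q262.Circ

/-- the check of `Φ_{np} Φ_n = Φ_n(x^p)` by evaluation at `B` -/
def cycChk (B p : ℕ) (np nm mp mm : List ℕ) : Bool :=
  Nat.beq
    (ev B mp.reverse 0 * ev B np.reverse 0 + ev B mm.reverse 0 * ev B nm.reverse 0
      + ev (B ^ p) nm.reverse 0)
    (ev B mp.reverse 0 * ev B nm.reverse 0 + ev B mm.reverse 0 * ev B np.reverse 0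
      + ev (B ^ p) np.reverse 0) &&
  Nat.blt
    (ev 1 mp.reverse 0 * ev 1 np.reverse 0 + ev 1 mm.reverse 0 * ev 1 nm.reverse 0
      + ev 1 nm.reverse 0) B &&
  Nat.blt
    (ev 1 mp.reverse 0 * ev 1 nm.reverse 0 + ev 1 mm.reverse 0 * ev 1 np.reverse 0
      + ev 1 np.reverse 0) B

theorem cyc_step (n p : ℕ) (hp : p.Prime) (hdiv : ¬ p ∣ n) (np nm mp mm : List ℕ)
    (hΦ : cyclotomic n ℤ = Z ℤ (lp np) (lp nm)) (B : ℕ) (h : cycChk B p np nm mp mm = true) :
    cyclotomic (n * p) ℤ = Z ℤ (lp mp) (lp mm) := by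
  rw [cycChk, Bool.and_eq_true, Bool.and_eq_true] at h
  obtain ⟨⟨h1, h2⟩, h3⟩ := h
  have h1 := Nat.eq_of_beq_eq_true h1
  have h2 : _ < _ := Nat.blt_eq.mp h2
  have h3 : _ < _ := Nat.blt_eq.mp h3
  simp only [← eval_lp] at h1 h2 h3
  have key : lp mp * lp np + lp mm * lp nm + expand ℕ p (lp nm) =
      lp mp * lp nm + lp mm * lp np + expand ℕ p (lp np) := by
    apply eq_of_eval B
    · rw [eval_add, eval_add, eval_mul, eval_mul, expand_eval, one_pow]; exact h2
    · rw [eval_add, eval_add, eval_mul, eval_mul, expand_eval, one_pow]; exact h3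
    · rw [eval_add, eval_add, eval_mul, eval_mul, expand_eval, eval_add, eval_add, eval_mul,
        eval_mul, expand_eval]
      exact h1
  have key2 := congrArg (Polynomial.map (Nat.castRingHom ℤ)) key
  simp only [Polynomial.map_add, Polynomial.map_mul, map_expand] at key2
  have h4 := cyclotomic_expand_eq_cyclotomic_mul hp hdiv ℤ
  have h5 : Z ℤ (lp mp) (lp mm) * cyclotomic n ℤ = expand ℤ p (cyclotomic n ℤ) := by
    rw [hΦ, Z, Z, map_sub]
    linear_combination key2
  rw [h4] at h5
  exact (mul_right_cancel₀ (cyclotomic_ne_zero n ℤ) h5).symm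

/-- the check of a derivative -/
def dchk : ℕ → List ℕ → List ℕ → Bool
  | _, [], [] => true
  | _, [], _ :: _ => false
  | _, _ :: _, [] => false
  | k, a :: l, b :: m => Nat.beq b (k * a) && force (k + 1) fun k' => dchk k' l m

lemma dchk_sound : ∀ (k : ℕ) (l m : List ℕ), dchk k l m = true →
    ∀ i, m.getD i 0 = (k + i) * l.getD i 0
  | _, [], [], _, i => by simp
  | _, [], _ :: _, h, _ => absurd h (by simp [dchk])
  | _, _ :: _, [], h, _ => absurd h (by simp [dchk])
  | k, a :: l, b :: m, h, i => by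
    rw [dchk, Bool.and_eq_true, force_eq] at h
    have h1 := Nat.eq_of_beq_eq_true h.1
    rcases i with _ | i
    · simpa using h1
    · have := dchk_sound (k + 1) l m h.2 i
      simp only [List.getD_cons_succ]
      rw [this]
      ring

lemma derivative_lp (a : ℕ) (l m : List ℕ) (h : dchk 1 l m = true) :
    derivative (lp (a :: l)) = lp m := by
  ext i
  rw [coeff_derivative, lp_coeff, lp_coeff, dchk_sound 1 l m h i, List.getD_cons_succ]
  push_cast
  ring

/-- the coefficients of `P(-X)`: first list plus, second list minus -/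
def alt : Bool → List ℕ → List ℕ → List ℕ
  | _, [], _ => []
  | _, _ :: _, [] => []
  | b, a :: l, c :: m => cond b a c :: alt (!b) l m

lemma alt_length : ∀ (b : Bool) (l m : List ℕ), l.length = m.length →
    (alt b l m).length = l.length
  | _, [], _, _ => rfl
  | _, _ :: _, [], h => by simp at h
  | b, a :: l, c :: m, h => by
    simp only [List.length_cons, Nat.add_right_cancel_iff] at h
    simp [alt, alt_length (!b) l m h]

lemma alt_getD : ∀ (b : Bool) (l m : List ℕ), l.length = m.length → ∀ i,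
    (alt b l m).getD i 0 = cond (b ^^ (i % 2 == 1)) (l.getD i 0) (m.getD i 0)
  | b, [], [], _, i => by simp [alt]
  | b, [], _ :: _, h, i => by simp at h
  | _, _ :: _, [], h, _ => by simp at h
  | b, a :: l, c :: m, h, i => by
    simp only [List.length_cons, Nat.add_right_cancel_iff] at h
    rcases i with _ | i
    · cases b <;> simp [alt]
    · have := alt_getD (!b) l m h i
      simp only [alt, List.getD_cons_succ]
      rw [this]
      rcases Nat.mod_two_eq_zero_or_one i with h2 | h2
      · have h3 : (i + 1) % 2 = 1 := by omega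
        rw [h2, h3]
        cases b <;> simp
      · have h3 : (i + 1) % 2 = 0 := by omega
        rw [h2, h3]
        cases b <;> simp

lemma coeff_comp_neg_X (P : ℝ[X]) (i : ℕ) : (P.comp (-X)).coeff i = (-1) ^ i * P.coeff i := by
  have h : (-X : ℝ[X]) = C (-1) * X := by simp
  rw [h, comp_C_mul_X_coeff]
  ring

lemma Z_comp_neg (dp dm : List ℕ) (h : dp.length = dm.length) :
    (Z ℝ (lp dp) (lp dm)).comp (-X) = Z ℝ (lp (alt true dp dm)) (lp (alt true dm dp)) := by
  ext i
  rw [coeff_comp_neg_X, Z_coeff, Z_coeff, lp_coeff, lp_coeff, lp_coeff, lp_coeff,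
    alt_getD true dp dm h, alt_getD true dm dp h.symm]
  rcases Nat.mod_two_eq_zero_or_one i with h2 | h2
  · have : Even i := Nat.even_iff.mpr h2
    rw [this.neg_one_pow, h2]
    simp
  · have : Odd i := Nat.odd_iff.mpr h2
    rw [this.neg_one_pow, h2]
    simp

/-- `q^{n} P(a/q)` by Horner's scheme, highest coefficient first -/
def hev (a q : ℕ) (l : List ℕ) : ℕ → ℕ → ℕ :=
  List.rec (motive := fun _ => ℕ → ℕ → ℕ) (fun acc _ => acc)
    (fun c _ ih acc Q => force (acc * a + c * Q) fun acc' => force (Q * q) fun Q' => ih acc' Q') l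

lemma hev_cons (a q c acc Q : ℕ) (l : List ℕ) :
    hev a q (c :: l) acc Q = hev a q l (acc * a + c * Q) (Q * q) := by
  show force (acc * a + c * Q) (fun acc' => force (Q * q) fun Q' => hev a q l acc' Q') = _
  rw [force_eq, force_eq]

lemma hev_eq (a q : ℕ) (hq : 0 < q) (l : List ℕ) : ∀ (acc Q : ℕ) (v : ℝ),
    (acc : ℝ) * q = Q * v →
    (hev a q l acc Q : ℝ) * q = Q * q ^ l.length *
      (v * ((a : ℝ) / q) ^ l.length + ((lp l.reverse).map (Nat.castRingHom ℝ)).eval ((a : ℝ) / q)) := by
  induction l with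
  | nil =>
    intro acc Q v h
    simp only [List.length_nil, pow_zero, mul_one, List.reverse_nil, lp_nil, Polynomial.map_zero,
      eval_zero, add_zero]
    exact h
  | cons c l ih =>
    intro acc Q v h
    have hq0 : (q : ℝ) ≠ 0 := by positivity
    rw [hev_cons, ih _ _ (v * (a / q) + c)]
    · rw [List.reverse_cons, lp_append, List.length_cons, List.length_reverse, lp_cons, lp_nil]
      simp only [Polynomial.map_add, Polynomial.map_mul, Polynomial.map_pow, map_X, map_C,
        Polynomial.map_zero, eval_add, eval_mul, eval_pow, eval_X, eval_C, eval_zero]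
      push_cast
      rw [pow_succ, pow_succ]
      ring
    · push_cast
      field_simp
      linear_combination (a : ℝ) * h

lemma hev_sign (a q : ℕ) (hq : 0 < q) (dp dm : List ℕ) (h : dp.length = dm.length)
    (hlt : hev a q dm.reverse 0 1 < hev a q dp.reverse 0 1) :
    0 < (Z ℝ (lp dp) (lp dm)).eval ((a : ℝ) / q) := by
  have h1 := hev_eq a q hq dp.reverse 0 1 0 (by simp)
  have h2 := hev_eq a q hq dm.reverse 0 1 0 (by simp)
  rw [List.reverse_reverse, List.length_reverse, zero_mul, zero_add] at h1 h2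
  rw [← h] at h2
  have h3 : (hev a q dm.reverse 0 1 : ℝ) < hev a q dp.reverse 0 1 := by exact_mod_cast hlt
  have hq' : (0 : ℝ) < q := by exact_mod_cast hq
  have h4 := mul_lt_mul_of_pos_right h3 hq'
  rw [h1, h2] at h4
  rw [Z, eval_sub]
  have h5 : (0 : ℝ) < ((1 : ℕ) : ℝ) * (q : ℝ) ^ dp.length := by positivity
  have := lt_of_mul_lt_mul_left h4 h5.le
  linarith

lemma Z_neg {R : Type} [Ring R] (a b : ℕ[X]) : -(Z R a b) = Z R b a := by
  rw [Z, Z, neg_sub]

lemma hev_sign_neg (a q : ℕ) (hq : 0 < q) (dp dm : List ℕ) (h : dp.length = dm.length)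
    (hlt : hev a q dp.reverse 0 1 < hev a q dm.reverse 0 1) :
    (Z ℝ (lp dp) (lp dm)).eval ((a : ℝ) / q) < 0 := by
  have := hev_sign a q hq dm dp h.symm hlt
  rw [← Z_neg, eval_neg] at this
  linarith

/-- sign changes give roots -/
theorem roots_card_ge (P : ℝ[X]) (hP : P ≠ 0) (t : ℕ → ℝ) (n : ℕ)
    (hmono : ∀ i < n, t i < t (i + 1))
    (hs : ∀ i < n, P.eval (t i) * P.eval (t (i + 1)) < 0) : n ≤ P.roots.card := by
  classical
  have hle : ∀ i j, i ≤ j → j ≤ n → t i ≤ t j := by
    intro i j hij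
    induction j, hij using Nat.le_induction with
    | base => intro _; exact le_rfl
    | succ j hij ih => intro hj; exact (ih (by omega)).trans (hmono j (by omega)).le
  have hroot : ∀ i : Fin n, ∃ r, t i < r ∧ r < t (i + 1) ∧ P.eval r = 0 := by
    intro i
    have h1 := hmono i i.2
    have h2 := hs i i.2
    have hcont : ContinuousOn (fun x => P.eval x) (Set.Icc (t i) (t (i + 1))) :=
      P.continuous.continuousOn
    rcases mul_neg_iff.mp h2 with ⟨h3, h4⟩ | ⟨h3, h4⟩
    · obtain ⟨r, hr, h0⟩ := intermediate_value_Ioo' h1.le hcont ⟨h4, h3⟩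
      exact ⟨r, hr.1, hr.2, h0⟩
    · obtain ⟨r, hr, h0⟩ := intermediate_value_Ioo h1.le hcont ⟨h3, h4⟩
      exact ⟨r, hr.1, hr.2, h0⟩
  choose r hr1 hr2 hr3 using hroot
  have hstrict : StrictMono r := by
    intro i j hij
    have : t (i + 1) ≤ t j := hle _ _ (by exact_mod_cast hij) (le_of_lt j.2)
    linarith [hr2 i, hr1 j]
  have hsub : (Finset.univ.image r) ⊆ P.roots.toFinset := by
    intro x hx
    obtain ⟨i, _, rfl⟩ := Finset.mem_image.mp hx
    rw [Multiset.mem_toFinset, mem_roots hP]
    exact hr3 i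
  have hcard := Finset.card_le_card hsub
  rw [Finset.card_image_of_injective _ hstrict.injective, Finset.card_univ, Fintype.card_fin] at hcard
  exact hcard.trans (Multiset.toFinset_card_le _)

/-- real roots of the derivative of a cyclotomic polynomial are in `[-1,1]` -/
theorem abs_root_le (n : ℕ) (hn : 0 < n) (x : ℝ)
    (hx : (derivative (cyclotomic n ℝ)).IsRoot x) (hne : derivative (cyclotomic n ℝ) ≠ 0) :
    |x| ≤ 1 := by
  have hd : 0 < (cyclotomic n ℂ).degree := degree_cyclotomic_pos n ℂ hn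
  have h1 := Polynomial.rootSet_derivative_subset_convexHull_rootSet hd
  have hmap : derivative (cyclotomic n ℂ) = (derivative (cyclotomic n ℝ)).map (algebraMap ℝ ℂ) := by
    rw [← derivative_map, map_cyclotomic]
  have hx' : (x : ℂ) ∈ (derivative (cyclotomic n ℂ)).rootSet ℂ := by
    rw [mem_rootSet]
    constructor
    · rw [hmap]
      exact (Polynomial.map_ne_zero_iff (algebraMap ℝ ℂ).injective).mpr hne
    · rw [hmap, aeval_map_algebraMap]
      have : (aeval (algebraMap ℝ ℂ x)) (derivative (cyclotomic n ℝ)) = 0 := by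
        rw [aeval_algebraMap_apply, coe_aeval_eq_eval, IsRoot.def.mp hx, map_zero]
      exact this
  have h2 := h1 hx'
  have h3 : convexHull ℝ ((cyclotomic n ℂ).rootSet ℂ) ⊆ Metric.closedBall (0 : ℂ) 1 := by
    apply convexHull_min _ (convex_closedBall _ _)
    intro z hz
    rw [mem_rootSet, coe_aeval_eq_eval] at hz
    have hz2 : IsPrimitiveRoot z n := by
      have : NeZero (n : ℂ) := ⟨by exact_mod_cast hn.ne'⟩
      exact isRoot_cyclotomic_iff.mp hz.2
    rw [mem_closedBall_zero_iff, hz2.norm'_eq_one hn.ne']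
  have h4 := h3 h2
  rw [mem_closedBall_zero_iff, Complex.norm_real, Real.norm_eq_abs] at h4
  exact h4

end Q262.Mono
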