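import Pool.Agent.Q262.Mono.Cyc
import Pool.Agent.Q262.Mono.Data

/-!
The kernel computations.
-/

set_option autoImplicit false

open Polynomial

namespace Q262.Mono

open Q262.Circ

/-- both numbers vanish -/
def fin0 (a b : ℕ) : Bool := Nat.beq a 0 && Nat.beq b 0

theorem chk177 : cycChk (2 ^ 16) 59 [1, 1, 1] [] p177 m177 = true := by decide +kernel

theorem chk885 : cycChk (2 ^ 16) 5 p177 m177 p885 m885 = true := by decide +kernel

theorem chk1239 : cycChk (2 ^ 16) 7 p177 m177 p1239 m1239 = true := by decide +kernel

theorem dchkp885 : dchk 1 p885.tail dp885 = true := by decide +kernel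

theorem dchkm885 : dchk 1 m885.tail dm885 = true := by decide +kernel

theorem dchkp1239 : dchk 1 p1239.tail dp1239 = true := by decide +kernel

theorem dchkm1239 : dchk 1 m1239.tail dm1239 = true := by decide +kernel

/-- the check for the positive side -/
def posChk (B : ℕ) : Bool :=
  force (ev (B + 1) dp1239 0) fun Hp => force (ev (B + 1) dm1239 0) fun Hm =>
    dig B true (dig B false (dig B true fin0 504) 189) 3 Hp Hm

theorem posChk_true : posChk (2 ^ 704) = true := by decide +kernel

theorem posBd : Nat.blt (ev 2 dp1239 0) (2 ^ 704) = true ∧ Nat.blt (ev 2 dm1239 0) (2 ^ 704) = true := by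
  decide +kernel

/-- the check for the negative side -/
def negChk (B : ℕ) : Bool :=
  force (ev (B + 1) (alt true dp1239 dm1239) 0) fun Hp =>
    force (ev (B + 1) (alt true dm1239 dp1239) 0) fun Hm =>
    dig B false (dig B true (dig B false (dig B true fin0 328) 359) 8) 1 Hp Hm

theorem negChk_true : negChk (2 ^ 704) = true := by decide +kernel

theorem negBd : Nat.blt (ev 2 (alt true dp1239 dm1239) 0) (2 ^ 704) = true ∧
    Nat.blt (ev 2 (alt true dm1239 dp1239) 0) (2 ^ 704) = true := by
  decide +kernel

theorem len1239 : dp1239.length = 696 ∧ dm1239.length = 696 := by decide +kernel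

theorem len885 : dp885.length = 464 ∧ dm885.length = 464 := by decide +kernel

/-- sign of the value of a difference of lists -/
def sgChk (a q : ℕ) (dp dm : List ℕ) : Bool :=
  Nat.blt (hev a q dm.reverse 0 1) (hev a q dp.reverse 0 1)

theorem sg1 : sgChk 1 1 (alt true dm885 dp885) (alt true dp885 dm885) = true := by decide +kernel
theorem sg2 : sgChk 127 128 (alt true dp885 dm885) (alt true dm885 dp885) = true := by decide +kernel
theorem sg3 : sgChk 61 64 (alt true dm885 dp885) (alt true dp885 dm885) = true := by decide +kernel
theorem sg4 : sgChk 59 64 (alt true dp885 dm885) (alt true dm885 dp885) = true := by decide +kernel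
theorem sg5 : sgChk 3 4 (alt true dm885 dp885) (alt true dp885 dm885) = true := by decide +kernel
theorem sg6 : sgChk 0 1 dp885 dm885 = true := by decide +kernel
theorem sg7 : sgChk 7 8 dm885 dp885 = true := by decide +kernel
theorem sg8 : sgChk 1 1 dp885 dm885 = true := by decide +kernel

/-- values at `0, 1, -1` of the other derivative -/
theorem ne0 : (sgChk 0 1 dp1239 dm1239 || sgChk 0 1 dm1239 dp1239) = true := by decide +kernel
theorem ne1 : (sgChk 1 1 dp1239 dm1239 || sgChk 1 1 dm1239 dp1239) = true := by decide +kernel
theorem ne2 : (sgChk 1 1 (alt true dp1239 dm1239) (alt true dm1239 dp1239) ||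
    sgChk 1 1 (alt true dm1239 dp1239) (alt true dp1239 dm1239)) = true := by decide +kernel

end Q262.Mono
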