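import Mathlib

/-!
Upper bounds for the number of sign variations of a polynomial, and transfer of roots.
-/

set_option autoImplicit false

open Polynomial

namespace Q262.Mono

/-- If the coefficient signs are constant on blocks, numbered by a monotone function `b`, then
the number of sign variations is at most the last block number. -/
theorem signVariations_le (b : ℕ → ℕ) (hb : Monotone b) (s : ℝ) (hs : s = 1 ∨ s = -1) :
    ∀ (n : ℕ) (R : ℝ[X]), R.natDegree ≤ n → (∀ i, 0 ≤ (-1 : ℝ) ^ (b i) * s * R.coeff i) →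
      R.signVariations ≤ b n := by
  intro n
  induction n using Nat.strong_induction_on with
  | _ n ih =>
  intro R hdeg hR
  by_cases h0 : R = 0
  · rw [h0, signVariations_zero]; exact Nat.zero_le _
  have hlt := signVariations_eq_eraseLead_add_ite h0
  by_cases hQ : R.eraseLead = 0
  · rw [hlt, hQ, signVariations_zero, leadingCoeff_zero, sign_zero, neg_zero]
    rw [if_neg (by rw [sign_eq_zero_iff]; exact leadingCoeff_ne_zero.mpr h0)]
    simp
  have hc2 : 2 ≤ R.support.card := by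
    by_contra hcon
    have h1 : R.support.card ≤ 1 := by omega
    have : R.eraseLead = 0 := by
      rw [← support_eq_empty, eraseLead_support]
      rw [← Finset.card_eq_zero, Finset.card_erase_of_mem (natDegree_mem_support_of_nonzero h0)]
      omega
    exact hQ this
  have hQdeg : R.eraseLead.natDegree < R.natDegree := eraseLead_natDegree_lt hc2
  have hQs : ∀ i, 0 ≤ (-1 : ℝ) ^ (b i) * s * R.eraseLead.coeff i := by
    intro i
    rw [eraseLead_coeff]
    split_ifs
    · simp
    · exact hR i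
  have ih1 := ih R.eraseLead.natDegree (lt_of_lt_of_le hQdeg hdeg) R.eraseLead le_rfl hQs
  have hmono : b R.eraseLead.natDegree ≤ b R.natDegree := hb hQdeg.le
  have hmono2 : b R.natDegree ≤ b n := hb hdeg
  rw [hlt]
  split_ifs with hsg
  · have hne : b R.eraseLead.natDegree ≠ b R.natDegree := by
      intro heq
      have h1 := hR R.natDegree
      have h2 := hQs R.eraseLead.natDegree
      rw [heq] at h2
      change 0 ≤ _ * R.leadingCoeff at h1
      change 0 ≤ _ * R.eraseLead.leadingCoeff at h2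
      have l1 : R.leadingCoeff ≠ 0 := leadingCoeff_ne_zero.mpr h0
      have l2 : R.eraseLead.leadingCoeff ≠ 0 := leadingCoeff_ne_zero.mpr hQ
      set u : ℝ := (-1 : ℝ) ^ (b R.natDegree) * s with hu
      have hu1 : u = 1 ∨ u = -1 := by
        rcases neg_one_pow_eq_or ℝ (b R.natDegree) with h | h <;> rcases hs with h' | h' <;>
          rw [hu, h, h'] <;> norm_num
      rcases lt_or_gt_of_ne l1 with p1 | p1 <;> rcases lt_or_gt_of_ne l2 with p2 | p2
      · rw [sign_neg p1, sign_neg p2] at hsg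
        revert hsg; decide
      · rcases hu1 with h | h <;> rw [h] at h1 h2 <;> linarith
      · rcases hu1 with h | h <;> rw [h] at h1 h2 <;> linarith
      · rw [sign_pos p1, sign_pos p2] at hsg
        revert hsg; decide
    omega
  · omega

/-- Transfer of roots through a multiplicative map. -/
theorem countP_le_of_mul (T : ℝ[X] → ℝ[X]) (I : ℝ → Prop) [DecidablePred I]
    (hmul : ∀ P Q, T (P * Q) = T P * T Q) (hne : ∀ P, P ≠ 0 → T P ≠ 0)
    (hroot : ∀ r, I r → ∃ η, 0 < η ∧ η ∈ (T (X - C r)).roots) :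
    ∀ (k : ℕ) (P : ℝ[X]), P ≠ 0 → P.roots.countP I = k → k ≤ (T P).roots.countP (0 < ·) := by
  intro k
  induction k with
  | zero => intro P _ _; exact Nat.zero_le _
  | succ k ih =>
    intro P hP hk
    obtain ⟨r, hr, hI⟩ : ∃ x, x ∈ P.roots ∧ I x := by
      apply Multiset.countP_pos.mp
      omega
    obtain ⟨Q, rfl⟩ := dvd_iff_isRoot.mpr (isRoot_of_mem_roots hr)
    have hQ : Q ≠ 0 := right_ne_zero_of_mul hP
    have hk' : Q.roots.countP I = k := by
      rw [roots_mul hP, roots_X_sub_C, Multiset.countP_add, Multiset.countP_eq_card_filter,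
        Multiset.filter_singleton, if_pos hI, Multiset.card_singleton] at hk
      omega
    have h1 := ih Q hQ hk'
    have hTne := hne _ hP
    rw [hmul] at hTne ⊢
    rw [roots_mul hTne, Multiset.countP_add]
    obtain ⟨η, hη, hm⟩ := hroot r hI
    have : 1 ≤ (T (X - C r)).roots.countP (0 < ·) := by
      rw [Nat.succ_le_iff]
      exact Multiset.countP_pos.mpr ⟨η, hm, hη⟩
    omega

lemma reverse_X_sub_C (r : ℝ) : (X - C r : ℝ[X]).reverse = 1 - C r * X := by
  have hnd : (X - C r : ℝ[X]).natDegree = 1 := natDegree_X_sub_C r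
  ext i
  rw [coeff_reverse, hnd]
  rcases i with _ | _ | i
  · rw [revAt_le (by norm_num)]
    simp
  · rw [revAt_le (by norm_num)]
    simp [coeff_one]
  · rw [revAt_eq_self_of_lt (by omega)]
    rw [coeff_sub, coeff_sub, coeff_X_of_ne_one (by omega), coeff_C_of_ne_zero (by omega),
      coeff_one, if_neg (by omega), coeff_C_mul, coeff_X_of_ne_one (by omega)]
    simp

/-- the map `P ↦ (1+X)^n P(1/(1+X))` -/
noncomputable def T1 (P : ℝ[X]) : ℝ[X] := P.reverse.comp (X + 1)

/-- the map `P ↦ (1+X)^n P(-1/(1+X))` -/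
noncomputable def T2 (P : ℝ[X]) : ℝ[X] := T1 (P.comp (-X))

lemma T1_mul (P Q : ℝ[X]) : T1 (P * Q) = T1 P * T1 Q := by
  rw [T1, reverse_mul_of_domain, mul_comp, T1, T1]

lemma T2_mul (P Q : ℝ[X]) : T2 (P * Q) = T2 P * T2 Q := by
  rw [T2, mul_comp, T1_mul, T2, T2]

lemma T1_ne {P : ℝ[X]} (hP : P ≠ 0) : T1 P ≠ 0 := by
  intro h
  rw [T1] at h
  have h2 : (P.reverse.comp (X + 1)).comp (X - 1) = 0 := by rw [h, zero_comp]
  rw [comp_assoc] at h2
  have h3 : (X + 1 : ℝ[X]).comp (X - 1) = X := by simp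
  rw [h3, comp_X] at h2
  exact hP (reverse_eq_zero.mp h2)

lemma T2_ne {P : ℝ[X]} (hP : P ≠ 0) : T2 P ≠ 0 := by
  apply T1_ne
  intro h
  have h2 : (P.comp (-X)).comp (-X) = 0 := by rw [h, zero_comp]
  rw [comp_assoc] at h2
  have h3 : (-X : ℝ[X]).comp (-X) = X := by simp
  rw [h3, comp_X] at h2
  exact hP h2

lemma T1_root (r : ℝ) (hr : 0 < r ∧ r < 1) : ∃ η, 0 < η ∧ η ∈ (T1 (X - C r)).roots := by
  refine ⟨(1 - r) / r, div_pos (by linarith [hr.2]) hr.1, ?_⟩
  rw [mem_roots (T1_ne (X_sub_C_ne_zero r)), IsRoot.def, T1, reverse_X_sub_C]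
  simp only [sub_comp, one_comp, mul_comp, C_comp, X_comp, eval_sub, eval_one, eval_mul, eval_C,
    eval_add, eval_X]
  have := hr.1.ne'
  field_simp
  ring

lemma T2_root (r : ℝ) (hr : -1 < r ∧ r < 0) : ∃ η, 0 < η ∧ η ∈ (T2 (X - C r)).roots := by
  have hfac : (X - C r : ℝ[X]).comp (-X) = C (-1) * (X - C (-r)) := by
    simp only [sub_comp, X_comp, C_comp, C_neg, C_1]
    ring
  obtain ⟨η, h1, h2⟩ := T1_root (-r) ⟨by linarith [hr.2], by linarith [hr.1]⟩
  refine ⟨η, h1, ?_⟩
  rw [mem_roots (T2_ne (X_sub_C_ne_zero r)), IsRoot.def, T2, hfac, T1_mul, eval_mul]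
  rw [mem_roots (T1_ne (X_sub_C_ne_zero (-r))), IsRoot.def] at h2
  rw [h2, mul_zero]

theorem count01 (P : ℝ[X]) (hP : P ≠ 0) (b : ℕ → ℕ) (hb : Monotone b) (s : ℝ)
    (hs : s = 1 ∨ s = -1) (n : ℕ) (hdeg : (T1 P).natDegree ≤ n)
    (hR : ∀ i, 0 ≤ (-1 : ℝ) ^ (b i) * s * (T1 P).coeff i) :
    P.roots.countP (fun r => 0 < r ∧ r < 1) ≤ b n := by
  classical
  have h1 := countP_le_of_mul T1 (fun r => 0 < r ∧ r < 1) T1_mul (fun P => T1_ne) T1_root _ P hP rfl
  exact h1.trans ((roots_countP_pos_le_signVariations _).trans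
    (signVariations_le b hb s hs n _ hdeg hR))

theorem count10 (P : ℝ[X]) (hP : P ≠ 0) (b : ℕ → ℕ) (hb : Monotone b) (s : ℝ)
    (hs : s = 1 ∨ s = -1) (n : ℕ) (hdeg : (T2 P).natDegree ≤ n)
    (hR : ∀ i, 0 ≤ (-1 : ℝ) ^ (b i) * s * (T2 P).coeff i) :
    P.roots.countP (fun r => -1 < r ∧ r < 0) ≤ b n := by
  classical
  have h1 := countP_le_of_mul T2 (fun r => -1 < r ∧ r < 0) T2_mul (fun P => T2_ne) T2_root _ P hP rfl
  exact h1.trans ((roots_countP_pos_le_signVariations _).trans
    (signVariations_le b hb s hs n _ hdeg hR))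

end Q262.Mono
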