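import Pool.Agent.Q262.Circ.Comp
import Pool.Agent.Q262.Mono.Sign

/-!
Polynomials given by lists of natural numbers, and kernel-friendly checks.
-/

set_option autoImplicit false

open Polynomial

namespace Q262.Mono

open Q262.Circ

/-- the polynomial with the given coefficients, lowest first -/
noncomputable def lp (l : List ℕ) : ℕ[X] := l.foldr (fun a P => C a + X * P) 0

@[simp] lemma lp_nil : lp [] = 0 := rfl

@[simp] lemma lp_cons (a : ℕ) (l : List ℕ) : lp (a :: l) = C a + X * lp l := rfl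

lemma lp_coeff (l : List ℕ) (i : ℕ) : (lp l).coeff i = l.getD i 0 := by
  induction l generalizing i with
  | nil => simp
  | cons a l ih =>
    rcases i with _ | i
    · simp
    · rw [lp_cons, coeff_add, coeff_C_succ, coeff_X_mul, ih]
      simp

lemma lp_append (l m : List ℕ) : lp (l ++ m) = lp l + X ^ l.length * lp m := by
  induction l with
  | nil => simp
  | cons a l ih =>
    rw [List.cons_append, lp_cons, ih, lp_cons, List.length_cons, pow_succ]
    ring

/-- Horner scheme -/
noncomputable def hq (q : ℕ[X]) (l : List ℕ) (acc : ℕ[X]) : ℕ[X] :=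
  l.foldl (fun acc a => acc * q + C a) acc

@[simp] lemma hq_nil (q acc : ℕ[X]) : hq q [] acc = acc := rfl

@[simp] lemma hq_cons (q : ℕ[X]) (a : ℕ) (l : List ℕ) (acc : ℕ[X]) :
    hq q (a :: l) acc = hq q l (acc * q + C a) := rfl

lemma hq_X (l : List ℕ) (acc : ℕ[X]) : hq X l acc = acc * X ^ l.length + lp l.reverse := by
  induction l generalizing acc with
  | nil => simp
  | cons a l ih =>
    rw [hq_cons, ih, List.reverse_cons, lp_append, List.length_cons, List.length_reverse, lp_cons,
      lp_nil, pow_succ]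
    ring

lemma hq_comp (q r : ℕ[X]) (l : List ℕ) (acc : ℕ[X]) :
    (hq q l acc).comp r = hq (q.comp r) l (acc.comp r) := by
  induction l generalizing acc with
  | nil => simp
  | cons a l ih => simp [ih]

/-- evaluation by Horner's scheme -/
def ev (B : ℕ) (l : List ℕ) : ℕ → ℕ :=
  List.rec (motive := fun _ => ℕ → ℕ) (fun acc => acc)
    (fun a _ ih acc => force (acc * B + a) ih) l

@[simp] lemma ev_nil (B acc : ℕ) : ev B [] acc = acc := rfl

@[simp] lemma ev_cons (B a acc : ℕ) (l : List ℕ) : ev B (a :: l) acc = ev B l (acc * B + a) := by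
  show force (acc * B + a) (ev B l) = _
  rw [force_eq]

lemma ev_eq (q : ℕ[X]) (B : ℕ) (l : List ℕ) (acc : ℕ[X]) :
    (hq q l acc).eval B = ev (q.eval B) l (acc.eval B) := by
  induction l generalizing acc with
  | nil => simp
  | cons a l ih => simp [ih]

lemma eval_lp (B : ℕ) (l : List ℕ) : (lp l).eval B = ev B l.reverse 0 := by
  have h := ev_eq X B l.reverse 0
  rw [hq_X, zero_mul, zero_add, List.reverse_reverse, eval_X, eval_zero] at h
  exact h

lemma eval_eq_divX (P : ℕ[X]) (B : ℕ) : P.eval B = P.divX.eval B * B + P.coeff 0 := by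
  conv_lhs => rw [← divX_mul_X_add P]
  simp

lemma digit0 (P : ℕ[X]) (B : ℕ) (h : P.eval 1 < B) :
    P.eval B % B = P.coeff 0 ∧ P.eval B / B = P.divX.eval B ∧ P.divX.eval 1 < B := by
  have h1 := eval_eq_divX P 1
  have h2 := eval_eq_divX P B
  have h3 : P.coeff 0 < B := by omega
  have hB : 0 < B := by omega
  refine ⟨?_, ?_, by omega⟩
  · rw [h2, Nat.mul_add_mod_self_right, Nat.mod_eq_of_lt h3]
  · rw [h2, Nat.add_div_of_dvd_right (Dvd.intro_left _ rfl), Nat.div_eq_of_lt h3, add_zero,
      Nat.mul_div_cancel _ hB]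

lemma eq_of_eval (B : ℕ) : ∀ (P Q : ℕ[X]), P.eval 1 < B → Q.eval 1 < B → P.eval B = Q.eval B →
    P = Q := by
  have key : ∀ (j : ℕ) (P Q : ℕ[X]), P.eval 1 < B → Q.eval 1 < B → P.eval B = Q.eval B →
      P.coeff j = Q.coeff j := by
    intro j
    induction j with
    | zero =>
      intro P Q hP hQ h
      rw [← (digit0 P B hP).1, ← (digit0 Q B hQ).1, h]
    | succ j ih =>
      intro P Q hP hQ h
      rw [← coeff_divX, ← coeff_divX]
      apply ih _ _ (digit0 P B hP).2.2 (digit0 Q B hQ).2.2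
      rw [← (digit0 P B hP).2.1, ← (digit0 Q B hQ).2.1, h]
  intro P Q hP hQ h
  ext j
  exact key j P Q hP hQ h

/-- comparison of `f` digits -/
def dig (B : ℕ) (b : Bool) (k : ℕ → ℕ → Bool) (f : ℕ) : ℕ → ℕ → Bool :=
  Nat.rec (motive := fun _ => ℕ → ℕ → Bool) k
    (fun _ ih Hp Hm =>
      cond (cond b (Nat.ble (Hm % B) (Hp % B)) (Nat.ble (Hp % B) (Hm % B)))
        (force (Hp / B) fun Hp' => force (Hm / B) fun Hm' => ih Hp' Hm') false) f

lemma dig_succ (B : ℕ) (b : Bool) (k : ℕ → ℕ → Bool) (f Hp Hm : ℕ) :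
    dig B b k (f + 1) Hp Hm =
      cond (cond b (Nat.ble (Hm % B) (Hp % B)) (Nat.ble (Hp % B) (Hm % B)))
        (dig B b k f (Hp / B) (Hm / B)) false := by
  show cond _ (force (Hp / B) fun Hp' => force (Hm / B) fun Hm' => dig B b k f Hp' Hm') false = _
  rw [force_eq, force_eq]

lemma dig_sound (B : ℕ) (b : Bool) (k : ℕ → ℕ → Bool) (f : ℕ) :
    ∀ P M : ℕ[X], P.eval 1 < B → M.eval 1 < B → dig B b k f (P.eval B) (M.eval B) = true →
      (∀ j < f, if b then M.coeff j ≤ P.coeff j else P.coeff j ≤ M.coeff j) ∧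
      ∃ P' M' : ℕ[X], (∀ j, P'.coeff j = P.coeff (j + f)) ∧ (∀ j, M'.coeff j = M.coeff (j + f)) ∧
        P'.eval 1 < B ∧ M'.eval 1 < B ∧ k (P'.eval B) (M'.eval B) = true := by
  induction f with
  | zero =>
    intro P M hP hM h
    exact ⟨fun j hj => absurd hj (Nat.not_lt_zero j), P, M, fun _ => rfl, fun _ => rfl, hP, hM, h⟩
  | succ f ih =>
    intro P M hP hM h
    rw [dig_succ] at h
    obtain ⟨p1, p2, p3⟩ := digit0 P B hP
    obtain ⟨m1, m2, m3⟩ := digit0 M B hM
    rw [p1, p2, m1, m2] at h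
    cases hc : (cond b (Nat.ble (M.coeff 0) (P.coeff 0)) (Nat.ble (P.coeff 0) (M.coeff 0))) with
    | false => rw [hc] at h; exact absurd h (by simp)
    | true =>
      rw [hc, cond_true] at h
      obtain ⟨h1, P', M', q1, q2, q3, q4, q5⟩ := ih _ _ p3 m3 h
      refine ⟨?_, P', M', ?_, ?_, q3, q4, q5⟩
      · intro j hj
        rcases j with _ | j
        · cases b
          · simpa using hc
          · simpa using hc
        · have := h1 j (by omega)
          rwa [coeff_divX, coeff_divX] at this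
      · intro j; rw [q1, coeff_divX]; congr 1
      · intro j; rw [q2, coeff_divX]; congr 1

lemma eq_zero_of_eval (P : ℕ[X]) (B : ℕ) (h : P.eval 1 < B) (h0 : P.eval B = 0) : P = 0 := by
  apply eq_of_eval B P 0 h
  · rw [eval_zero]; omega
  · rw [h0, eval_zero]

/-- two polynomials with natural coefficients, subtracted -/
noncomputable def Z (R : Type) [Ring R] (a b : ℕ[X]) : R[X] :=
  a.map (Nat.castRingHom R) - b.map (Nat.castRingHom R)

lemma Z_coeff {R : Type} [Ring R] (a b : ℕ[X]) (i : ℕ) :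
    (Z R a b).coeff i = (a.coeff i : R) - (b.coeff i : R) := by
  simp [Z]

lemma Z_map (a b : ℕ[X]) : (Z ℤ a b).map (Int.castRingHom ℝ) = Z ℝ a b := by
  rw [Z, Z, Polynomial.map_sub, Polynomial.map_map, Polynomial.map_map]
  congr 2

lemma getD_reverse (l : List ℕ) (i : ℕ) (hi : i < l.length) :
    l.reverse.getD i 0 = l.getD (l.length - 1 - i) 0 := by
  rw [List.getD_eq_getElem?_getD, List.getD_eq_getElem?_getD, List.getElem?_reverse hi]

lemma T1_Z (dp dm : List ℕ) (n : ℕ) (hp : dp.length = n + 1) (hm : dm.length = n + 1)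
    (hne : dp.getD n 0 ≠ dm.getD n 0) :
    T1 (Z ℝ (lp dp) (lp dm)) = Z ℝ (hq (X + 1) dp 0) (hq (X + 1) dm 0) := by
  have hdeg : (Z ℝ (lp dp) (lp dm)).natDegree = n := by
    apply le_antisymm
    · rw [natDegree_le_iff_coeff_eq_zero]
      intro i hi
      rw [Z_coeff, lp_coeff, lp_coeff, List.getD_eq_default _ _ (by omega),
        List.getD_eq_default _ _ (by omega)]
      simp
    · apply le_natDegree_of_ne_zero
      rw [Z_coeff, lp_coeff, lp_coeff, sub_ne_zero]
      exact_mod_cast hne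
  have hrev : (Z ℝ (lp dp) (lp dm)).reverse = Z ℝ (hq X dp 0) (hq X dm 0) := by
    ext i
    rw [coeff_reverse, hdeg, hq_X, hq_X, zero_mul, zero_mul, zero_add, zero_add, Z_coeff, Z_coeff,
      lp_coeff, lp_coeff, lp_coeff, lp_coeff]
    by_cases hi : i ≤ n
    · rw [revAt_le hi, getD_reverse _ _ (by omega), getD_reverse _ _ (by omega), hp, hm]
      rfl
    · rw [revAt_eq_self_of_lt (by omega), List.getD_eq_default _ _ (by omega),
        List.getD_eq_default _ _ (by omega), List.getD_eq_default _ _ (by rw [List.length_reverse]; omega),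
        List.getD_eq_default _ _ (by rw [List.length_reverse]; omega)]
  have hc : ∀ d : List ℕ, ((hq X d 0).map (Nat.castRingHom ℝ)).comp (X + 1) =
      (hq (X + 1) d 0).map (Nat.castRingHom ℝ) := by
    intro d
    have h1 := hq_comp X (X + 1) d 0
    rw [X_comp, zero_comp] at h1
    rw [← h1, Polynomial.map_comp]
    simp
  rw [T1, hrev, Z, sub_comp, hc, hc, Z]

end Q262.Mono
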