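import Pool.Agent.Q262.Mono.Checks

/-!
Counting the real roots of `Φ_885'` and `Φ_1239'`.
-/

set_option autoImplicit false

open Polynomial

namespace Q262.Mono

open Q262.Circ

lemma cyc3 : cyclotomic 3 ℤ = Z ℤ (lp [1, 1, 1]) (lp []) := by
  rw [cyclotomic_three]
  ext i
  rw [Z_coeff, lp_coeff, lp_coeff]
  rcases i with _ | _ | _ | i
  · simp [coeff_X, coeff_one]
  · simp [coeff_X, coeff_one]
  · simp [coeff_X, coeff_one]
  · simp [coeff_X, coeff_one]

lemma cyc177 : cyclotomic 177 ℤ = Z ℤ (lp p177) (lp m177) := by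
  have := cyc_step 3 59 (by norm_num) (by norm_num) _ _ _ _ cyc3 _ chk177
  exact this

lemma cyc885 : cyclotomic 885 ℤ = Z ℤ (lp p885) (lp m885) := by
  have := cyc_step 177 5 (by norm_num) (by norm_num) _ _ _ _ cyc177 _ chk885
  exact this

lemma cyc1239 : cyclotomic 1239 ℤ = Z ℤ (lp p1239) (lp m1239) := by
  have := cyc_step 177 7 (by norm_num) (by norm_num) _ _ _ _ cyc177 _ chk1239
  exact this

lemma derivative_Z (a b : ℕ[X]) : derivative (Z ℝ a b) = Z ℝ (derivative a) (derivative b) := by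
  rw [Z, Z, derivative_sub, derivative_map, derivative_map]

lemma der885 : derivative (cyclotomic 885 ℝ) = Z ℝ (lp dp885) (lp dm885) := by
  rw [← map_cyclotomic_int, cyc885, Z_map, derivative_Z]
  have h1 : derivative (lp p885) = lp dp885 := derivative_lp _ _ _ dchkp885
  have h2 : derivative (lp m885) = lp dm885 := derivative_lp _ _ _ dchkm885
  rw [h1, h2]

lemma der1239 : derivative (cyclotomic 1239 ℝ) = Z ℝ (lp dp1239) (lp dm1239) := by
  rw [← map_cyclotomic_int, cyc1239, Z_map, derivative_Z]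
  have h1 : derivative (lp p1239) = lp dp1239 := derivative_lp _ _ _ dchkp1239
  have h2 : derivative (lp m1239) = lp dm1239 := derivative_lp _ _ _ dchkm1239
  rw [h1, h2]

lemma sg_pos (a q : ℕ) (hq : 0 < q) (dp dm : List ℕ) (h : dp.length = dm.length)
    (hs : sgChk a q dp dm = true) : 0 < (Z ℝ (lp dp) (lp dm)).eval ((a : ℝ) / q) :=
  hev_sign a q hq dp dm h (Nat.blt_eq.mp hs)

lemma sg_neg (a q : ℕ) (hq : 0 < q) (dp dm : List ℕ) (h : dp.length = dm.length)
    (hs : sgChk a q dm dp = true) : (Z ℝ (lp dp) (lp dm)).eval ((a : ℝ) / q) < 0 :=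
  hev_sign_neg a q hq dp dm h (Nat.blt_eq.mp hs)

lemma eval_neg_Z (dp dm : List ℕ) (h : dp.length = dm.length) (x : ℝ) :
    (Z ℝ (lp dp) (lp dm)).eval (-x) =
      (Z ℝ (lp (alt true dp dm)) (lp (alt true dm dp))).eval x := by
  rw [← Z_comp_neg dp dm h, eval_comp]
  simp

lemma sg_pos' (a q : ℕ) (hq : 0 < q) (dp dm : List ℕ) (h : dp.length = dm.length)
    (hs : sgChk a q (alt true dp dm) (alt true dm dp) = true) :
    0 < (Z ℝ (lp dp) (lp dm)).eval (-((a : ℝ) / q)) := by
  rw [eval_neg_Z dp dm h]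
  apply sg_pos a q hq _ _ _ hs
  rw [alt_length _ _ _ h, alt_length _ _ _ h.symm, h]

lemma sg_neg' (a q : ℕ) (hq : 0 < q) (dp dm : List ℕ) (h : dp.length = dm.length)
    (hs : sgChk a q (alt true dm dp) (alt true dp dm) = true) :
    (Z ℝ (lp dp) (lp dm)).eval (-((a : ℝ) / q)) < 0 := by
  rw [eval_neg_Z dp dm h]
  apply sg_neg a q hq _ _ _ hs
  rw [alt_length _ _ _ h, alt_length _ _ _ h.symm, h]

/-- the evaluation points -/
noncomputable def pt : ℕ → ℝ
  | 0 => -((1 : ℕ) / (1 : ℕ))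
  | 1 => -((127 : ℕ) / (128 : ℕ))
  | 2 => -((61 : ℕ) / (64 : ℕ))
  | 3 => -((59 : ℕ) / (64 : ℕ))
  | 4 => -((3 : ℕ) / (4 : ℕ))
  | 5 => ((0 : ℕ) / (1 : ℕ))
  | 6 => ((7 : ℕ) / (8 : ℕ))
  | _ => ((1 : ℕ) / (1 : ℕ))

theorem card885 : 7 ≤ (derivative (cyclotomic 885 ℝ)).roots.card := by
  rw [der885]
  have hl : dp885.length = dm885.length := by rw [len885.1, len885.2]
  have s0 := sg_neg' 1 1 (by norm_num) dp885 dm885 hl sg1
  have s1 := sg_pos' 127 128 (by norm_num) dp885 dm885 hl sg2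
  have s2 := sg_neg' 61 64 (by norm_num) dp885 dm885 hl sg3
  have s3 := sg_pos' 59 64 (by norm_num) dp885 dm885 hl sg4
  have s4 := sg_neg' 3 4 (by norm_num) dp885 dm885 hl sg5
  have s5 := sg_pos 0 1 (by norm_num) dp885 dm885 hl sg6
  have s6 := sg_neg 7 8 (by norm_num) dp885 dm885 hl sg7
  have s7 := sg_pos 1 1 (by norm_num) dp885 dm885 hl sg8
  have hne : Z ℝ (lp dp885) (lp dm885) ≠ 0 := by
    intro h
    rw [h, eval_zero] at s7
    exact lt_irrefl _ s7
  apply roots_card_ge _ hne pt 7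
  · intro i hi
    interval_cases i <;> simp only [pt] <;> norm_num
  · intro i hi
    interval_cases i
    · exact mul_neg_of_neg_of_pos s0 s1
    · exact mul_neg_of_pos_of_neg s1 s2
    · exact mul_neg_of_neg_of_pos s2 s3
    · exact mul_neg_of_pos_of_neg s3 s4
    · exact mul_neg_of_neg_of_pos s4 s5
    · exact mul_neg_of_pos_of_neg s5 s6
    · exact mul_neg_of_neg_of_pos s6 s7

/-- block numbers, positive side -/
def b1 (i : ℕ) : ℕ := if i < 3 then 0 else if i < 192 then 1 else 2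

/-- block numbers, negative side -/
def b2 (i : ℕ) : ℕ := if i < 1 then 0 else if i < 9 then 1 else if i < 368 then 2 else 3

lemma b1_mono : Monotone b1 := by
  intro i j h
  unfold b1
  split_ifs <;> omega

lemma b2_mono : Monotone b2 := by
  intro i j h
  unfold b2
  split_ifs <;> omega

lemma fin0_sound (P M : ℕ[X]) (B : ℕ) (hP : P.eval 1 < B) (hM : M.eval 1 < B)
    (h : fin0 (P.eval B) (M.eval B) = true) : P = 0 ∧ M = 0 := by
  rw [fin0, Bool.and_eq_true] at h
  exact ⟨eq_zero_of_eval P B hP (Nat.eq_of_beq_eq_true h.1),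
    eq_zero_of_eval M B hM (Nat.eq_of_beq_eq_true h.2)⟩

lemma hq_eval (l : List ℕ) (B : ℕ) : (hq (X + 1) l 0).eval B = ev (B + 1) l 0 := by
  rw [ev_eq]; simp

lemma coeffs1 (j : ℕ) : 0 ≤ (-1 : ℝ) ^ (b1 j) * 1 *
    (Z ℝ (hq (X + 1) dp1239 0) (hq (X + 1) dm1239 0)).coeff j := by
  have hb := posBd
  have h := posChk_true
  rw [posChk, force_eq, force_eq, ← hq_eval, ← hq_eval] at h
  have hb1 : (hq (X + 1) dp1239 0).eval 1 < 2 ^ 704 := by
    rw [hq_eval]; exact Nat.blt_eq.mp hb.1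
  have hb2 : (hq (X + 1) dm1239 0).eval 1 < 2 ^ 704 := by
    rw [hq_eval]; exact Nat.blt_eq.mp hb.2
  generalize hq (X + 1) dp1239 0 = P at *
  generalize hq (X + 1) dm1239 0 = M at *
  obtain ⟨c1, P1, M1, e1, f1, g1, k1, h⟩ := dig_sound _ _ _ _ P M hb1 hb2 h
  obtain ⟨c2, P2, M2, e2, f2, g2, k2, h⟩ := dig_sound _ _ _ _ P1 M1 g1 k1 h
  obtain ⟨c3, P3, M3, e3, f3, g3, k3, h⟩ := dig_sound _ _ _ _ P2 M2 g2 k2 h
  obtain ⟨z1, z2⟩ := fin0_sound P3 M3 _ g3 k3 h
  rw [Z_coeff]
  by_cases h3 : j < 3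
  · have := c1 j h3
    rw [if_pos rfl] at this
    have h4 : (M.coeff j : ℝ) ≤ P.coeff j := by exact_mod_cast this
    rw [b1, if_pos h3]
    linarith
  by_cases h192 : j < 192
  · have := c2 (j - 3) (by omega)
    rw [if_neg (by simp), e1, f1, Nat.sub_add_cancel (by omega)] at this
    have h4 : (P.coeff j : ℝ) ≤ M.coeff j := by exact_mod_cast this
    rw [b1, if_neg h3, if_pos h192]
    linarith
  have hR : (M.coeff j : ℝ) ≤ P.coeff j := by
    by_cases h696 : j < 696
    · have := c3 (j - 192) (by omega)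
      rw [if_pos rfl, e2, f2, e1, f1] at this
      have h5 : j - 192 + 189 + 3 = j := by omega
      rw [h5] at this
      exact_mod_cast this
    · have u1 := e3 (j - 696)
      have u2 := f3 (j - 696)
      rw [z1, coeff_zero, e2, e1] at u1
      rw [z2, coeff_zero, f2, f1] at u2
      have h5 : j - 696 + 504 + 189 + 3 = j := by omega
      rw [h5] at u1 u2
      rw [← u1, ← u2]
  rw [b1, if_neg h3, if_neg h192]
  linarith

lemma coeffs2 (j : ℕ) : 0 ≤ (-1 : ℝ) ^ (b2 j) * (-1) *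
    (Z ℝ (hq (X + 1) (alt true dp1239 dm1239) 0)
      (hq (X + 1) (alt true dm1239 dp1239) 0)).coeff j := by
  have hb := negBd
  have h := negChk_true
  rw [negChk, force_eq, force_eq, ← hq_eval, ← hq_eval] at h
  have hb1 : (hq (X + 1) (alt true dp1239 dm1239) 0).eval 1 < 2 ^ 704 := by
    rw [hq_eval]; exact Nat.blt_eq.mp hb.1
  have hb2 : (hq (X + 1) (alt true dm1239 dp1239) 0).eval 1 < 2 ^ 704 := by
    rw [hq_eval]; exact Nat.blt_eq.mp hb.2
  generalize hq (X + 1) (alt true dp1239 dm1239) 0 = P at *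
  generalize hq (X + 1) (alt true dm1239 dp1239) 0 = M at *
  obtain ⟨c1, P1, M1, e1, f1, g1, k1, h⟩ := dig_sound _ _ _ _ P M hb1 hb2 h
  obtain ⟨c2, P2, M2, e2, f2, g2, k2, h⟩ := dig_sound _ _ _ _ P1 M1 g1 k1 h
  obtain ⟨c3, P3, M3, e3, f3, g3, k3, h⟩ := dig_sound _ _ _ _ P2 M2 g2 k2 h
  obtain ⟨c4, P4, M4, e4, f4, g4, k4, h⟩ := dig_sound _ _ _ _ P3 M3 g3 k3 h
  obtain ⟨z1, z2⟩ := fin0_sound P4 M4 _ g4 k4 h
  rw [Z_coeff]
  by_cases h1 : j < 1
  · have := c1 j h1
    rw [if_neg (by simp)] at this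
    have h4 : (P.coeff j : ℝ) ≤ M.coeff j := by exact_mod_cast this
    rw [b2, if_pos h1]
    linarith
  by_cases h9 : j < 9
  · have := c2 (j - 1) (by omega)
    rw [if_pos rfl, e1, f1, Nat.sub_add_cancel (by omega)] at this
    have h4 : (M.coeff j : ℝ) ≤ P.coeff j := by exact_mod_cast this
    rw [b2, if_neg h1, if_pos h9]
    linarith
  by_cases h368 : j < 368
  · have := c3 (j - 9) (by omega)
    rw [if_neg (by simp), e2, f2, e1, f1] at this
    have h5 : j - 9 + 8 + 1 = j := by omega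
    rw [h5] at this
    have h4 : (P.coeff j : ℝ) ≤ M.coeff j := by exact_mod_cast this
    rw [b2, if_neg h1, if_neg h9, if_pos h368]
    linarith
  have hR : (M.coeff j : ℝ) ≤ P.coeff j := by
    by_cases h696 : j < 696
    · have := c4 (j - 368) (by omega)
      rw [if_pos rfl, e3, f3, e2, f2, e1, f1] at this
      have h5 : j - 368 + 359 + 8 + 1 = j := by omega
      rw [h5] at this
      exact_mod_cast this
    · have u1 := e4 (j - 696)
      have u2 := f4 (j - 696)
      rw [z1, coeff_zero, e3, e2, e1] at u1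
      rw [z2, coeff_zero, f3, f2, f1] at u2
      have h5 : j - 696 + 328 + 359 + 8 + 1 = j := by omega
      rw [h5] at u1 u2
      rw [← u1, ← u2]
  rw [b2, if_neg h1, if_neg h9, if_neg h368]
  linarith

theorem card1239 : (derivative (cyclotomic 1239 ℝ)).roots.card ≤ 5 := by
  classical
  have hl : dp1239.length = dm1239.length := by rw [len1239.1, len1239.2]
  set D := derivative (cyclotomic 1239 ℝ) with hD
  have hDZ : D = Z ℝ (lp dp1239) (lp dm1239) := der1239
  have n0 : D.eval 0 ≠ 0 := by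
    rw [hDZ]
    rcases (Bool.or_eq_true _ _).mp ne0 with h | h
    · have := sg_pos 0 1 (by norm_num) _ _ hl h
      simpa using this.ne'
    · have := sg_neg 0 1 (by norm_num) _ _ hl h
      simpa using this.ne
  have n1 : D.eval 1 ≠ 0 := by
    rw [hDZ]
    rcases (Bool.or_eq_true _ _).mp ne1 with h | h
    · have := sg_pos 1 1 (by norm_num) _ _ hl h
      simpa using this.ne'
    · have := sg_neg 1 1 (by norm_num) _ _ hl h
      simpa using this.ne
  have n2 : D.eval (-1) ≠ 0 := by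
    rw [hDZ]
    rcases (Bool.or_eq_true _ _).mp ne2 with h | h
    · have := sg_pos' 1 1 (by norm_num) _ _ hl h
      simpa using this.ne'
    · have := sg_neg' 1 1 (by norm_num) _ _ hl h
      simpa using this.ne
  have hne : D ≠ 0 := by
    intro h
    rw [h, eval_zero] at n0
    exact n0 rfl
  have hT1 : T1 D = Z ℝ (hq (X + 1) dp1239 0) (hq (X + 1) dm1239 0) := by
    rw [hDZ]
    apply T1_Z _ _ 695 len1239.1 len1239.2
    decide +kernel
  have hT2 : T2 D = Z ℝ (hq (X + 1) (alt true dp1239 dm1239) 0)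
      (hq (X + 1) (alt true dm1239 dp1239) 0) := by
    rw [T2, hDZ, Z_comp_neg _ _ hl]
    apply T1_Z _ _ 695
    · rw [alt_length _ _ _ hl, len1239.1]
    · rw [alt_length _ _ _ hl.symm, len1239.2]
    · decide +kernel
  have c1 : D.roots.countP (fun r => 0 < r ∧ r < 1) ≤ 2 := by
    refine (count01 D hne b1 b1_mono 1 (Or.inl rfl) _ le_rfl ?_).trans ?_
    · rw [hT1]; exact coeffs1
    · unfold b1; split_ifs <;> omega
  have c2 : D.roots.countP (fun r => -1 < r ∧ r < 0) ≤ 3 := by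
    refine (count10 D hne b2 b2_mono (-1) (Or.inr rfl) _ le_rfl ?_).trans ?_
    · rw [hT2]; exact coeffs2
    · unfold b2; split_ifs <;> omega
  have hsplit := Multiset.card_eq_countP_add_countP (fun r : ℝ => 0 < r ∧ r < 1) D.roots
  have hrest : D.roots.countP (fun r : ℝ => ¬ (0 < r ∧ r < 1)) ≤
      D.roots.countP (fun r => -1 < r ∧ r < 0) := by
    rw [Multiset.countP_eq_card_filter, Multiset.countP_eq_card_filter]
    apply Multiset.card_le_card
    rw [Multiset.le_filter]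
    refine ⟨Multiset.filter_le _ _, ?_⟩
    intro r hr
    obtain ⟨hr1, hr2⟩ := Multiset.mem_filter.mp hr
    have hroot : D.IsRoot r := isRoot_of_mem_roots hr1
    have habs := abs_root_le 1239 (by norm_num) r hroot hne
    have r0 : r ≠ 0 := by rintro rfl; exact n0 hroot
    have r1 : r ≠ 1 := by rintro rfl; exact n1 hroot
    have r2 : r ≠ -1 := by rintro rfl; exact n2 hroot
    obtain ⟨a1, a2⟩ := abs_le.mp habs
    have l1 : r < 1 := lt_of_le_of_ne a2 r1
    have l2 : -1 < r := lt_of_le_of_ne a1 (Ne.symm r2)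
    refine ⟨l2, ?_⟩
    by_contra hcon
    push Not at hcon
    exact hr2 ⟨lt_of_le_of_ne hcon (Ne.symm r0), l1⟩
  omega

end Q262.Mono
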